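import Pool.Agent.Y762.LB.Final

set_option autoImplicit false

/-!
# MP_f72ff1_an: bilinear spherical maximal functions at the endpoints `p = 1`, on the Lorentz scale

`M_T(f,g) = sup_{t ∈ T} |A_t(f,g)|` is the bilinear spherical maximal function over an arbitrary set
`T` of radii; `T = {2^l : l ∈ ℤ}` gives `M_lac`.  For every set `T` that is not contained in a
compact subinterval of `(0,∞)`, every `0 < q < ∞` and `r = q / (1 + q)`, the operator `M_T` is not
bounded from `L^1 × L^{q,u}` to `L^{r,s}` for any `s < u ≤ ∞`, even for nonnegative bounded functions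
with bounded support; the norm is at least `c N^{1/s - 1/u}` if `T` contains `N` radii with ratios at
least two.

Outline.  Let `t_1 < ... < t_N` be the radii, `f` the indicator function of the ball of radius `t_1`
and `g` the maximum of `(2 t_k)^{-d/q} 1_{B(0, 2 t_k)}`.  Then `M_T(f,g) ≥ c t_1^d t_k^{-d/r}` on
`B(0, t_k/4)` for all `k`.  The `N` scales contribute equally to the quasi-norms: the one of `g` is
`≤ C N^{1/u}`, the one of `M_T(f,g)` is `≥ c t_1^d N^{1/s}`.
-/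

namespace Pool.Agent.Results.MP_f72ff1_an.LorentzScale

open MeasureTheory Set Pool.Agent.Y762.LB Pool.Agent.Helper406.LacBilinear
open scoped ENNReal NNReal

/-- Let `d ≥ 2`. (1) Quantitative form, Lorentz scale: for `0 < q, s, u < ∞` there is `c > 0` such
that, if `T` contains `n ≥ 1` positive radii with consecutive ratios at least two, every constant `C`
in `‖M_T(f,g)‖_{L^{r,s}} ≤ C ‖f‖_1 ‖g‖_{L^{q,u}}`, `r = q / (1 + q)`, is at least `c n^{1/s - 1/u}`.
(2) Quantitative form, strong type: every constant in `‖M_T(f,g)‖_{L^r} ≤ C ‖f‖_1 ‖g‖_{L^q}` is at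
least `c n`. (3) If `T` is not contained in a compact subinterval of `(0,∞)` then, for `0 < q < ∞`,
none of the inequalities `L^1 × L^q → L^r`, `L^1 × L^{q,u} → L^{r,s}` (`s < u < ∞`),
`L^1 × L^q → L^{r,s}` (`s < q`), `L^1 × L^{q,∞} → L^{r,s}` (`s < ∞`), `L^1 × L^∞ → L^{1,s}`
(`s < ∞`) holds. (4) `M_lac` is `M_T` for the set `T` of the powers of two, and this `T` is not
contained in a compact subinterval. (All inequalities: for nonnegative bounded Borel functions with
bounded support.) -/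
theorem result (d : ℕ) (hd : 2 ≤ d) :
    (∀ q s u : ℝ, 0 < q → 0 < s → 0 < u → ∃ c : ℝ, 0 < c ∧
      ∀ (T : Set ℝ) (t : ℕ → ℝ) (n : ℕ), 1 ≤ n → Sep T t n → ∀ C : ℝ≥0,
        Ineq d T (lorentz d (q / (1 + q)) s) (fun g => lorentz d q u (fun x => ‖g x‖ₑ)) C →
        c * (n : ℝ) ^ (1 / s - 1 / u) ≤ C) ∧
    (∀ q : ℝ, 0 < q → ∃ c : ℝ, 0 < c ∧
      ∀ (T : Set ℝ) (t : ℕ → ℝ) (n : ℕ), 1 ≤ n → Sep T t n → ∀ C : ℝ≥0,
        Ineq d T (strongL d (q / (1 + q))) (fun g => eLpNorm g (ENNReal.ofReal q) volume) C →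
        c * (n : ℝ) ≤ C) ∧
    (∀ T : Set ℝ, T ⊆ Ioi 0 → (∀ a b : ℝ, 0 < a → ¬ T ⊆ Icc a b) →
      (∀ q : ℝ, 0 < q → ∀ C : ℝ≥0,
        ¬ Ineq d T (strongL d (q / (1 + q))) (fun g => eLpNorm g (ENNReal.ofReal q) volume) C ∧
        (∀ s u : ℝ, 0 < s → s < u →
          ¬ Ineq d T (lorentz d (q / (1 + q)) s)
            (fun g => lorentz d q u (fun x => ‖g x‖ₑ)) C) ∧
        (∀ s : ℝ, 0 < s → s < q →
          ¬ Ineq d T (lorentz d (q / (1 + q)) s)
            (fun g => eLpNorm g (ENNReal.ofReal q) volume) C) ∧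
        (∀ s : ℝ, 0 < s →
          ¬ Ineq d T (lorentz d (q / (1 + q)) s) (fun g => weakL d q (fun x => ‖g x‖ₑ)) C)) ∧
      (∀ s : ℝ, 0 < s → ∀ C : ℝ≥0,
        ¬ Ineq d T (lorentz d 1 s) (fun g => eLpNorm g ∞ volume) C)) ∧
    (∀ (f g : E d → ℝ) (x : E d),
      lacMax d f g x = radMax d (range fun l : ℤ => (2 : ℝ) ^ l) f g x) ∧
    (range fun l : ℤ => (2 : ℝ) ^ l) ⊆ Ioi 0 ∧
    (∀ a b : ℝ, 0 < a → ¬ (range fun l : ℤ => (2 : ℝ) ^ l) ⊆ Icc a b) := by
  have hd1 : 1 ≤ d := by omega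
  refine ⟨fun q s u hq hs hu => quant_lorentz hd1 q s u hq hs hu,
    fun q hq => quant_strong hd1 q hq, fun T hT hT' => ⟨fun q hq C => ⟨?_, ?_, ?_, ?_⟩, ?_⟩,
    lacMax_eq, ?_, ?_⟩
  · intro hI
    obtain ⟨c, hc, H⟩ := quant_strong hd1 q hq
    exact no_bound T hT hT' c 1 hc one_pos C fun n t hn ht => by
      rw [Real.rpow_one]; exact H T t n hn ht C hI
  · intro s u hs hsu hI
    have hu : 0 < u := hs.trans hsu
    obtain ⟨c, hc, H⟩ := quant_lorentz hd1 q s u hq hs hu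
    exact no_bound T hT hT' c (1 / s - 1 / u) hc
      (sub_pos.mpr (one_div_lt_one_div_of_lt hs hsu)) C fun n t hn ht => H T t n hn ht C hI
  · intro s hs hsq hI
    obtain ⟨c, hc, H⟩ := quant_q hd1 q s hq hs
    exact no_bound T hT hT' c (1 / s - 1 / q) hc
      (sub_pos.mpr (one_div_lt_one_div_of_lt hs hsq)) C fun n t hn ht => H T t n hn ht C hI
  · intro s hs hI
    obtain ⟨c, hc, H⟩ := quant_weak hd1 q s hq hs
    exact no_bound T hT hT' c (1 / s) hc (by positivity) C fun n t hn ht => H T t n hn ht C hI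
  · intro s hs C hI
    obtain ⟨c, hc, H⟩ := quant_inf hd1 s hs
    exact no_bound T hT hT' c (1 / s) hc (by positivity) C fun n t hn ht => H T t n hn ht C hI
  · rintro x ⟨l, rfl⟩
    change (0 : ℝ) < (2 : ℝ) ^ l
    positivity
  · intro a b ha hsub
    have h1 : Filter.Tendsto (fun n : ℕ => (2 : ℝ) ^ n) Filter.atTop Filter.atTop :=
      tendsto_pow_atTop_atTop_of_one_lt one_lt_two
    obtain ⟨n, hn⟩ := (h1.eventually_gt_atTop b).exists
    have h2 := (hsub ⟨(n : ℤ), rfl⟩).2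
    simp only [zpow_natCast] at h2
    linarith

end Pool.Agent.Results.MP_f72ff1_an.LorentzScale
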